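import Mathlib

namespace Pool.Agent.Results.MP_a5410e_nt.PeriodicPolynomial

open Polynomial

/-- `g` is additive: `g(x+y) = g(x) + g(y)` for all `x, y` in the (infinite) field `K`. -/
def IsAdditive {K : Type} [Field K] (g : K[X]) : Prop :=
  ∀ x y : K, g.eval (x + y) = g.eval x + g.eval y

/-- `g` is additive up to a constant. -/
def IsAdditiveUpToConst {K : Type} [Field K] (g : K[X]) : Prop :=
  ∃ c : K, ∀ x y : K, g.eval (x + y) + c = g.eval x + g.eval y

/-- The map `f_lam(x) = f(x) + lam`. -/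
def fam {K : Type} [Field K] (f : K[X]) (lam : K) (x : K) : K := f.eval x + lam

/-- The set `C_f(α₁, α₂; β)` of all `lam` in `K` such that
`f_lam^m(α₁) = f_lam^n(α₂) = β` for some `m, n ≥ 1`. -/
def Coll {K : Type} [Field K] (f : K[X]) (α₁ α₂ β : K) : Set K :=
  {lam | (∃ m : ℕ, 1 ≤ m ∧ (fam f lam)^[m] α₁ = β) ∧ (∃ n : ℕ, 1 ≤ n ∧ (fam f lam)^[n] α₂ = β)}

/-- The statement Q1 for the prime `p`; here `K` is an algebraic closure of `L`, so that the
elements of `K` which are algebraic over `ZMod p` form the algebraic closure of `F_p`. -/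
def Q1 (p : ℕ) [Fact p.Prime] : Prop :=
  ∀ (L K : Type) [Field L] [Field K] [Algebra L K] [IsAlgClosure L K] [Algebra (ZMod p) K]
    (f : K[X]) (α₁ α₂ β : L),
    (∀ i, IsAlgebraic (ZMod p) (f.coeff i)) → 2 ≤ f.natDegree → ¬ IsAdditive f →
    ¬ (IsAlgebraic (ZMod p) (algebraMap L K α₁) ∧ IsAlgebraic (ZMod p) (algebraMap L K α₂) ∧
      IsAlgebraic (ZMod p) (algebraMap L K β)) →
    ((Coll f (algebraMap L K α₁) (algebraMap L K α₂) (algebraMap L K β)).Infinite ↔
      f.eval (algebraMap L K α₁) = f.eval (algebraMap L K α₂))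

/-- The polynomial `(x^p - x)^(p(p+1))`. -/
noncomputable def Fp (p : ℕ) (K : Type) [Field K] : K[X] := (X ^ p - X) ^ (p * (p + 1))

section

variable {K : Type} [Field K] (p : ℕ) [hp : Fact p.Prime] [CharP K p]

omit [CharP K p] in
theorem natDegree_base : ((X : K[X]) ^ p - X).natDegree = p := by
  have h1 : (1 : ℕ) < p := hp.out.one_lt
  have : ((X : K[X]) ^ p - X).natDegree = ((X : K[X]) ^ p).natDegree := by
    apply natDegree_sub_eq_left_of_natDegree_lt
    rw [natDegree_X, natDegree_X_pow]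
    exact h1
  rw [this, natDegree_X_pow]

omit [CharP K p] in
theorem natDegree_Fp : (Fp p K).natDegree = p * (p + 1) * p := by
  unfold Fp
  rw [natDegree_pow, natDegree_base]

theorem Fp_shift (x : K) : (Fp p K).eval (x + 1) = (Fp p K).eval x := by
  unfold Fp
  simp only [eval_pow, eval_sub, eval_X]
  rw [add_pow_char]
  congr 1
  ring

omit hp in
theorem derivative_Fp : derivative (Fp p K) = 0 := by
  unfold Fp
  rw [mul_comm, pow_mul, derivative_pow]
  simp

/-- `f_lam^m(a)` as a polynomial in `lam`. -/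
noncomputable def iterPoly (f : K[X]) (a : K) : ℕ → K[X]
  | 0 => C a
  | m + 1 => f.comp (iterPoly f a m) + X

omit hp [CharP K p] in
theorem eval_iterPoly (f : K[X]) (a lam : K) (m : ℕ) :
    (iterPoly f a m).eval lam = (fam f lam)^[m] a := by
  induction m with
  | zero => simp [iterPoly]
  | succ m ih =>
    rw [Function.iterate_succ_apply', ← ih]
    simp [iterPoly, fam]

omit hp [CharP K p] in
theorem derivative_iterPoly (f : K[X]) (hf : derivative f = 0) (a : K) (m : ℕ) :
    derivative (iterPoly f a (m + 1)) = 1 := by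
  simp [iterPoly, derivative_comp, hf]

omit hp [CharP K p] in
theorem natDegree_iterPoly (f : K[X]) (hf : 2 ≤ f.natDegree) (a : K) (m : ℕ) :
    (iterPoly f a (m + 1)).natDegree = f.natDegree ^ m := by
  induction m with
  | zero =>
    simp only [iterPoly, comp_C, pow_zero]
    rw [add_comm, natDegree_add_C, natDegree_X]
  | succ m ih =>
    have h1 : (f.comp (iterPoly f a (m + 1))).natDegree = f.natDegree ^ (m + 1) := by
      rw [natDegree_comp, ih, pow_succ, mul_comm]
    show (f.comp (iterPoly f a (m + 1)) + X).natDegree = _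
    rw [natDegree_add_eq_left_of_natDegree_lt, h1]
    rw [h1, natDegree_X]
    exact Nat.one_lt_pow (by omega) (by omega)

omit hp [CharP K p] in
theorem card_hits [IsAlgClosed K] (f : K[X]) (hf : 2 ≤ f.natDegree) (hd : derivative f = 0)
    (a b : K) (m : ℕ) :
    ∃ S : Finset K, S.card = f.natDegree ^ m ∧ ∀ lam ∈ S, (fam f lam)^[m + 1] a = b := by
  classical
  set P : K[X] := iterPoly f a (m + 1) - C b with hP
  have hdeg : P.natDegree = f.natDegree ^ m := by
    rw [hP, natDegree_sub_C, natDegree_iterPoly f hf]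
  have hpos : 0 < f.natDegree ^ m := Nat.pos_of_ne_zero (pow_ne_zero _ (by omega))
  have hsep : P.Separable := by
    have : derivative P = 1 := by
      rw [hP, derivative_sub, derivative_C, sub_zero, derivative_iterPoly f hd]
    unfold Polynomial.Separable
    rw [this]
    exact isCoprime_one_right
  have hcard : P.roots.card = P.natDegree := by
    exact splits_iff_card_roots.mp (IsAlgClosed.splits P)
  refine ⟨P.roots.toFinset, ?_, ?_⟩
  · rw [Multiset.toFinset_card_of_nodup (nodup_roots hsep), hcard, hdeg]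
  · intro lam hlam
    have hP0 : P ≠ 0 := by
      rintro h0
      rw [h0, natDegree_zero] at hdeg
      omega
    rw [Multiset.mem_toFinset, mem_roots hP0] at hlam
    have : P.eval lam = 0 := hlam
    rw [hP, eval_sub, eval_C, eval_iterPoly, sub_eq_zero] at this
    exact this

/-- `f` is not additive, even up to a constant. -/
theorem Fp_not_additive [IsAlgClosed K] : ¬ IsAdditiveUpToConst (Fp p K) := by
  rintro ⟨c, h⟩
  have hpos : 0 < p := hp.out.pos
  have hinf : Infinite K := IsAlgClosed.instInfinite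
  have h00 := h 0 0
  have hF0 : (Fp p K).eval 0 = 0 := by
    unfold Fp
    simp [hpos.ne']
  simp only [add_zero, hF0, zero_add] at h00
  subst h00
  -- every element is `(x^p - x)^p`
  have hsurj : ∀ U : K, ∃ x : K, (x ^ p - x) ^ p = U := by
    intro U
    obtain ⟨u, hu⟩ := IsAlgClosed.exists_pow_nat_eq U hpos
    obtain ⟨x, hx⟩ := IsAlgClosed.exists_root (X ^ p - X - C u : K[X]) (by
      have : (X ^ p - X - C u : K[X]).natDegree = p := by
        rw [natDegree_sub_C, natDegree_base]
      intro h0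
      have h1 := natDegree_le_of_degree_le (le_of_eq h0 : _ ≤ ((0 : ℕ) : WithBot ℕ))
      omega)
    refine ⟨x, ?_⟩
    have : x ^ p - x - u = 0 := by simpa [IsRoot] using hx
    rw [sub_eq_zero.mp this, hu]
  have hadd : ∀ U V : K, (U + V) ^ (p + 1) = U ^ (p + 1) + V ^ (p + 1) := by
    intro U V
    obtain ⟨x, rfl⟩ := hsurj U
    obtain ⟨y, rfl⟩ := hsurj V
    have := h x y
    simp only [Fp, add_zero, eval_pow, eval_sub, eval_X] at this
    rw [pow_mul, pow_mul, pow_mul] at this
    rw [← this]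
    congr 1
    rw [← add_pow_char, add_pow_char x y p]
    congr 1
    ring
  have hz : ∀ U : K, (X ^ p + X : K[X]).eval U = 0 := by
    intro U
    have h1 := hadd U 1
    rw [pow_succ, add_pow_char, one_pow] at h1
    simp only [eval_add, eval_pow, eval_X, one_pow] at h1 ⊢
    linear_combination h1
  have h0 : (X ^ p + X : K[X]) = 0 := Polynomial.funext (fun r => by rw [hz r, eval_zero])
  have h1 : (X ^ p + X : K[X]).natDegree = p := by
    rw [natDegree_add_eq_left_of_natDegree_lt, natDegree_X_pow]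
    rw [natDegree_X, natDegree_X_pow]
    exact hp.out.one_lt
  rw [h0, natDegree_zero] at h1
  omega

end

theorem coeff_Fp_algebraic (p : ℕ) [Fact p.Prime] (K : Type) [Field K] [Algebra (ZMod p) K]
    (i : ℕ) : IsAlgebraic (ZMod p) ((Fp p K).coeff i) := by
  have : Fp p K = (Fp p (ZMod p)).map (algebraMap (ZMod p) K) := by
    simp [Fp]
  rw [this, coeff_map]
  exact isAlgebraic_algebraMap _

/-- Main construction. -/
theorem construction (p : ℕ) [hp : Fact p.Prime] (K : Type) [Field K] [CharP K p]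
    [IsAlgClosed K] (α₁ β : K) :
    ∃ α₂ : K, (Fp p K).eval α₁ ≠ (Fp p K).eval α₂ ∧ (Coll (Fp p K) α₁ α₂ β).Infinite := by
  have hdegK := natDegree_Fp (K := K) p
  have hp2 : 2 ≤ p := hp.out.two_le
  have hdeg2 : 2 ≤ p * (p + 1) * p := by nlinarith [Nat.mul_le_mul hp2 (Nat.le_succ p)]
  obtain ⟨α₂, hα₂⟩ := IsAlgClosed.exists_root (Fp p K - C ((Fp p K).eval α₁ - 1)) (by
    intro h0
    have h1 := natDegree_le_of_degree_le (le_of_eq h0 : _ ≤ ((0 : ℕ) : WithBot ℕ))
    rw [natDegree_sub_C, hdegK] at h1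
    omega)
  have hα : (Fp p K).eval α₂ = (Fp p K).eval α₁ - 1 := by
    have : (Fp p K - C ((Fp p K).eval α₁ - 1)).eval α₂ = 0 := hα₂
    rw [eval_sub, eval_C, sub_eq_zero] at this
    exact this
  refine ⟨α₂, ?_, ?_⟩
  · rw [hα]
    intro h1
    have : (1 : K) = 0 := by linear_combination h1
    exact one_ne_zero this
  · -- all iterates of order at least two agree
    have hE : ∀ (lam : K) (m : ℕ), (fam (Fp p K) lam)^[m + 2] α₁ =
        (fam (Fp p K) lam)^[m + 2] α₂ := by
      intro lam m
      rw [Function.iterate_add_apply, Function.iterate_add_apply]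
      congr 1
      show fam (Fp p K) lam (fam (Fp p K) lam α₁) = fam (Fp p K) lam (fam (Fp p K) lam α₂)
      have h1 : fam (Fp p K) lam α₁ = fam (Fp p K) lam α₂ + 1 := by
        unfold fam
        rw [hα]
        ring
      rw [h1]
      unfold fam
      rw [Fp_shift]
    intro hfin
    obtain ⟨S, hS, hhit⟩ := card_hits (Fp p K) (by rw [hdegK]; exact hdeg2) (derivative_Fp p)
      α₁ β (hfin.toFinset.card + 1)
    have hsub : S ⊆ hfin.toFinset := by
      intro lam hlam
      rw [Set.Finite.mem_toFinset]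
      have h1 := hhit lam hlam
      refine ⟨⟨_, by omega, h1⟩, ⟨hfin.toFinset.card + 1 + 1, by omega, ?_⟩⟩
      exact (hE lam hfin.toFinset.card).symm.trans h1
    have hle := Finset.card_le_card hsub
    rw [hS, hdegK] at hle
    have h2 : hfin.toFinset.card + 1 < (p * (p + 1) * p) ^ (hfin.toFinset.card + 1) :=
      Nat.lt_pow_self (by omega)
    omega

/-- **Main result.** For every prime `p` the assertion Q1 fails in characteristic `p`: for the
polynomial `f = (x^p - x)^(p(p+1))` over `F_p`, which is not additive even up to a constant,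
every algebraically closed field `K` of characteristic `p`, and all `α₁, β ∈ K`, there is
`α₂ ∈ K` with `f(α₁) ≠ f(α₂)` and `C_f(α₁, α₂; β)` infinite. -/
theorem result (p : ℕ) [Fact p.Prime] :
    ¬ Q1 p ∧
    ∀ (K : Type) [Field K] [Algebra (ZMod p) K] [IsAlgClosed K],
      (∀ i, IsAlgebraic (ZMod p) ((Fp p K).coeff i)) ∧
      (Fp p K).natDegree = p * (p + 1) * p ∧
      ¬ IsAdditiveUpToConst (Fp p K) ∧
      ∀ α₁ β : K, ∃ α₂ : K,
        (Fp p K).eval α₁ ≠ (Fp p K).eval α₂ ∧ (Coll (Fp p K) α₁ α₂ β).Infinite := by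
  have hp2 : 2 ≤ p := (Fact.out : p.Prime).two_le
  have hdeg2 : 2 ≤ p * (p + 1) * p := by nlinarith [Nat.mul_le_mul hp2 (Nat.le_succ p)]
  have part2 : ∀ (K : Type) [Field K] [Algebra (ZMod p) K] [IsAlgClosed K],
      (∀ i, IsAlgebraic (ZMod p) ((Fp p K).coeff i)) ∧
      (Fp p K).natDegree = p * (p + 1) * p ∧
      ¬ IsAdditiveUpToConst (Fp p K) ∧
      ∀ α₁ β : K, ∃ α₂ : K,
        (Fp p K).eval α₁ ≠ (Fp p K).eval α₂ ∧ (Coll (Fp p K) α₁ α₂ β).Infinite := by
    intro K _ _ _
    have : CharP K p := charP_of_injective_algebraMap (algebraMap (ZMod p) K).injective p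
    exact ⟨coeff_Fp_algebraic p _, natDegree_Fp p, Fp_not_additive p, construction p K⟩
  refine ⟨?_, part2⟩
  intro hQ
  obtain ⟨h1, h2, h3, h4⟩ := part2 (AlgebraicClosure (RatFunc (ZMod p)))
  set α₁ : AlgebraicClosure (RatFunc (ZMod p)) :=
    algebraMap (RatFunc (ZMod p)) _ (RatFunc.X) with hα₁
  obtain ⟨α₂, hne, hinf⟩ := h4 α₁ 0
  have htr : ¬ IsAlgebraic (ZMod p) α₁ := by
    rw [hα₁, isAlgebraic_algebraMap_iff
      (algebraMap (RatFunc (ZMod p)) (AlgebraicClosure (RatFunc (ZMod p)))).injective]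
    rw [← RatFunc.algebraMap_X, isAlgebraic_algebraMap_iff (RatFunc.algebraMap_injective _)]
    exact Polynomial.transcendental_X _
  have h3' : ¬ IsAdditive (Fp p (AlgebraicClosure (RatFunc (ZMod p)))) := by
    intro h
    exact h3 ⟨0, fun x y => by rw [add_zero]; exact h x y⟩
  exact hne ((hQ (AlgebraicClosure (RatFunc (ZMod p))) (AlgebraicClosure (RatFunc (ZMod p)))
    _ α₁ α₂ 0 h1 (by rw [h2]; exact hdeg2) h3' (fun h => htr h.1)).mp hinf)

end Pool.Agent.Results.MP_a5410e_nt.PeriodicPolynomial
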